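import Pool.Agent.H958.LR.Stm

/-!
# Existence of independent Poisson processes (project LR, piece EXI, for MP_7adf6c_pr)

Every cell `{i} × (m, m + 1]` gets a Poisson number of independent uniform points.  The joint
characteristic function of the counts of finitely many disjoint pieces is computed exactly, which
gives both the law and the independence.
-/

namespace Pool.Agent.H331.LR

open MeasureTheory ProbabilityTheory Set Pool.Agent.H958.LR
open scoped ENNReal NNReal Nat

/-! ### Products of functions of single coordinates -/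

lemma integral_prod_inf {ι : Type*} {X : ι → Type*} [∀ i, MeasurableSpace (X i)]
    (μ : ∀ i, Measure (X i)) [∀ i, IsProbabilityMeasure (μ i)] (s : Finset ι)
    (f : ∀ i, X i → ℂ) (hf : ∀ i, Measurable (f i)) :
    ∫ y, ∏ i ∈ s, f i (y i) ∂Measure.infinitePi μ = ∏ i ∈ s, ∫ x, f i x ∂μ i := by
  have h1 : ∀ y : (∀ i, X i), ∏ i ∈ s, f i (y i) =
      (fun z : ∀ i : s, X i => ∏ i : s, f i (z i)) (s.restrict y) := by
    intro y
    simp only [Finset.restrict]
    exact (Finset.prod_coe_sort s fun i => f i (y i)).symm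
  rw [integral_congr_ae (Filter.Eventually.of_forall h1),
    integral_restrict_infinitePi (μ := μ) (f := fun z : ∀ i : s, X i => ∏ i : s, f i (z i)),
    integral_fintype_prod_eq_prod (f := fun (i : s) (x : X i) => f i x)]
  · exact Finset.prod_coe_sort s fun i => ∫ x, f i x ∂μ i
  · refine Measurable.aestronglyMeasurable ?_
    refine Finset.measurable_fun_prod _ fun i _ => ?_
    exact (hf i).comp (measurable_pi_apply i)

/-! ### One cell -/

/-- The uniform law on `(m, m + 1]`. -/
noncomputable def uni (m : ℕ) : Measure ℝ := volume.restrict (Ioc (m : ℝ) (m + 1))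

instance (m : ℕ) : IsProbabilityMeasure (uni m) := ⟨by simp [uni]⟩

instance (m : ℕ) : NullSingletonClass (uni m) := by unfold uni; infer_instance

/-- The law of a cell: a Poisson number and a sequence of independent uniform points. -/
noncomputable def cellLaw (r : ℝ≥0) (m : ℕ) : Measure (ℕ × (ℕ → ℝ)) :=
  (poissonMeasure r).prod (Measure.infinitePi fun _ : ℕ => uni m)

instance (r : ℝ≥0) (m : ℕ) : IsProbabilityMeasure (cellLaw r m) := by
  unfold cellLaw; infer_instance

/-- The sum of `τ` over the points of the cell. -/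
noncomputable def cs (τ : ℝ → ℝ) (c : ℕ × (ℕ → ℝ)) : ℝ := ∑ l ∈ Finset.range c.1, τ (c.2 l)

lemma measurable_cs {τ : ℝ → ℝ} (hτ : Measurable τ) : Measurable (cs τ) := by
  unfold cs
  refine measurable_from_prod_countable_right fun n => ?_
  refine Finset.measurable_fun_sum (Finset.range n) (f := fun l (u : ℕ → ℝ) => τ (u l)) fun l _ => ?_
  exact hτ.comp (measurable_pi_apply l)

lemma poisson_pow (r : ℝ≥0) (z : ℂ) :
    ∫ n, z ^ n ∂(poissonMeasure r) = Complex.exp (r * (z - 1)) := by
  rw [integral_poissonMeasure]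
  have h : HasSum (fun n : ℕ => ((r : ℂ) * z) ^ n / (n ! : ℂ)) (Complex.exp (r * z)) := by
    have := NormedSpace.expSeries_div_hasSum_exp ((r : ℂ) * z)
    rwa [← Complex.exp_eq_exp_ℂ] at this
  have h2 := (h.mul_left (Complex.exp (-r)))
  have e : Complex.exp (r * (z - 1)) = Complex.exp (-r) * Complex.exp (r * z) := by
    rw [← Complex.exp_add]; ring_nf
  rw [e, ← h2.tsum_eq]
  refine tsum_congr fun n => ?_
  rw [Complex.real_smul]
  push_cast
  rw [mul_pow]
  ring

lemma cell_char (r : ℝ≥0) (m : ℕ) {τ : ℝ → ℝ} (hτ : Measurable τ) :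
    ∫ c, Complex.exp ((cs τ c : ℂ) * Complex.I) ∂(cellLaw r m) =
      Complex.exp (r * (∫ x, Complex.exp ((τ x : ℂ) * Complex.I) ∂(uni m) - 1)) := by
  have hm : Measurable fun c : ℕ × (ℕ → ℝ) => Complex.exp ((cs τ c : ℂ) * Complex.I) := by
    have := measurable_cs hτ
    fun_prop
  have hint : Integrable (fun c : ℕ × (ℕ → ℝ) => Complex.exp ((cs τ c : ℂ) * Complex.I))
      ((poissonMeasure r).prod (Measure.infinitePi fun _ : ℕ => uni m)) := by
    refine Integrable.of_bound hm.aestronglyMeasurable 1 (Filter.Eventually.of_forall fun c => ?_)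
    rw [Complex.norm_exp_ofReal_mul_I]
  unfold cellLaw
  rw [integral_prod _ hint]
  have inner : ∀ n : ℕ, ∫ u, Complex.exp ((cs τ (n, u) : ℂ) * Complex.I)
      ∂(Measure.infinitePi fun _ : ℕ => uni m) =
      (∫ x, Complex.exp ((τ x : ℂ) * Complex.I) ∂(uni m)) ^ n := by
    intro n
    have e1 : ∀ u : ℕ → ℝ, Complex.exp ((cs τ (n, u) : ℂ) * Complex.I) =
        ∏ l ∈ Finset.range n, Complex.exp ((τ (u l) : ℂ) * Complex.I) := by
      intro u
      rw [← Complex.exp_sum]
      congr 1
      simp only [cs]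
      push_cast
      rw [Finset.sum_mul]
    simp_rw [e1]
    rw [integral_prod_inf (fun _ : ℕ => uni m) (Finset.range n)
      (fun _ x => Complex.exp ((τ x : ℂ) * Complex.I)) (fun _ => by fun_prop)]
    simp
  simp_rw [inner]
  exact poisson_pow r _

/-! ### All cells -/

section All

variable {ι : Type} (r : ι → ℝ≥0)

/-- The law of all cells. -/
noncomputable def law : Measure (ι × ℕ → ℕ × (ℕ → ℝ)) :=
  Measure.infinitePi fun j : ι × ℕ => cellLaw (r j.1) j.2

instance : IsProbabilityMeasure (law r) := by unfold law; infer_instance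

open Classical in
/-- The number of points of a cell in `A`. -/
noncomputable def cnt (A : Set ℝ) (c : ℕ × (ℕ → ℝ)) : ℕ :=
  ((Finset.range c.1).filter fun l => c.2 l ∈ A).card

/-- The number of points of the cells `0, …, K - 1` of `i` in `(a, b]`. -/
noncomputable def XX (K : ℕ) (i : ι) (a b : ℝ) (ω : ι × ℕ → ℕ × (ℕ → ℝ)) : ℕ :=
  ∑ m ∈ Finset.range K, cnt (Ioc a b) (ω (i, m))

open Classical in
lemma cnt_cast (A : Set ℝ) (c : ℕ × (ℕ → ℝ)) :
    (cnt A c : ℝ) = cs (fun x => if x ∈ A then 1 else 0) c := by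
  simp only [cnt, cs]
  rw [Finset.sum_ite]
  simp

open Classical in
lemma measurable_cnt {A : Set ℝ} (hA : MeasurableSet A) : Measurable (cnt A) := by
  have h1 : Measurable fun c => (cnt A c : ℝ) := by
    simp_rw [cnt_cast]
    exact measurable_cs (Measurable.ite hA measurable_const measurable_const)
  have h2 : cnt A = fun c => ⌊(cnt A c : ℝ)⌋₊ := by
    funext c; simp
  rw [h2]
  exact Nat.measurable_floor.comp h1

lemma measurable_XX (K : ℕ) (i : ι) (a b : ℝ) : Measurable (XX K i a b) := by
  unfold XX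
  refine Finset.measurable_fun_sum _ fun m _ => ?_
  exact (measurable_cnt measurableSet_Ioc).comp (measurable_pi_apply _)

lemma vol_sum (K : ℕ) (a b : ℝ) (ha : 0 ≤ a) (hb : b ≤ K) :
    ∑ m ∈ Finset.range K, (uni m).real (Ioc a b) = max (b - a) 0 := by
  have key : ∀ K : ℕ, ∑ m ∈ Finset.range K, (uni m).real (Ioc a b) =
      volume.real (Ioc a b ∩ Ioc (0 : ℝ) K) := by
    intro K
    induction K with
    | zero => simp
    | succ K ih =>
      rw [Finset.sum_range_succ, ih]
      have e : Ioc a b ∩ Ioc (0 : ℝ) ((K + 1 : ℕ) : ℝ) =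
          (Ioc a b ∩ Ioc (0 : ℝ) K) ∪ (Ioc a b ∩ Ioc (K : ℝ) (K + 1)) := by
        rw [← inter_union_distrib_left, Ioc_union_Ioc_eq_Ioc (by positivity) (by linarith)]
        push_cast
        rfl
      have hf1 : volume (Ioc a b ∩ Ioc (0 : ℝ) K) ≠ ∞ :=
        ne_top_of_le_ne_top (by simp : volume (Ioc a b) ≠ ∞) (measure_mono inter_subset_left)
      have hf2 : volume (Ioc a b ∩ Ioc (K : ℝ) (K + 1)) ≠ ∞ :=
        ne_top_of_le_ne_top (by simp : volume (Ioc a b) ≠ ∞) (measure_mono inter_subset_left)
      have hd : Disjoint (Ioc a b ∩ Ioc (0 : ℝ) K) (Ioc a b ∩ Ioc (K : ℝ) (K + 1)) := by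
        refine Disjoint.mono inter_subset_right inter_subset_right ?_
        rw [Set.disjoint_left]
        intro x hx hx'
        exact absurd hx.2 (not_le.2 hx'.1)
      rw [e, measureReal_union hd (measurableSet_Ioc.inter measurableSet_Ioc) hf1 hf2]
      congr 1
      unfold uni
      rw [measureReal_restrict_apply measurableSet_Ioc]
  rw [key]
  have e : Ioc a b ∩ Ioc (0 : ℝ) K = Ioc a b := by
    refine inter_eq_left.2 fun x hx => ⟨lt_of_le_of_lt ha hx.1, hx.2.trans hb⟩
  rw [e, Real.volume_real_Ioc]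

open Classical in
/-- The joint characteristic function of the counts of disjoint pieces. -/
lemma joint_char {κ : Type} [Fintype κ] (l : κ → ι) (a b t : κ → ℝ) (ha : ∀ k, 0 ≤ a k)
    (hd : ∀ j k, j ≠ k → l j = l k → Disjoint (Ioc (a j) (b j)) (Ioc (a k) (b k)))
    (K : ℕ) (hK : ∀ k, b k ≤ K) :
    ∫ ω, Complex.exp (((∑ k, (XX K (l k) (a k) (b k) ω : ℝ) * t k : ℝ) : ℂ) * Complex.I) ∂(law r) =
      ∏ k, Complex.exp ((r (l k) * max (b k - a k) 0 : ℝ) *
        (Complex.exp ((t k : ℂ) * Complex.I) - 1)) := by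
  set τ : ι → ℝ → ℝ := fun i x => ∑ k, if l k = i ∧ x ∈ Ioc (a k) (b k) then t k else 0 with hτ
  have hτm : ∀ i, Measurable (τ i) := by
    intro i
    refine Finset.measurable_fun_sum _ fun k _ => ?_
    refine Measurable.ite ?_ measurable_const measurable_const
    by_cases h : l k = i
    · have : {x : ℝ | l k = i ∧ x ∈ Ioc (a k) (b k)} = Ioc (a k) (b k) := by
        ext x; simp [h]
      rw [this]
      exact measurableSet_Ioc
    · simp [h]
  set F : Finset (ι × ℕ) := (Finset.univ.image l) ×ˢ Finset.range K with hF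
  -- regrouping
  have e1 : ∀ ω : ι × ℕ → ℕ × (ℕ → ℝ), (∑ k, (XX K (l k) (a k) (b k) ω : ℝ) * t k : ℝ) =
      ∑ j ∈ F, cs (τ j.1) (ω j) := by
    intro ω
    have e2 : ∀ j : ι × ℕ, cs (τ j.1) (ω j) =
        ∑ k, if l k = j.1 then (cnt (Ioc (a k) (b k)) (ω j) : ℝ) * t k else 0 := by
      intro j
      simp only [cs, hτ]
      rw [Finset.sum_comm]
      refine Finset.sum_congr rfl fun k _ => ?_
      by_cases h : l k = j.1
      · simp only [h, true_and, if_true]
        rw [cnt_cast, cs, Finset.sum_mul]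
        refine Finset.sum_congr rfl fun n _ => ?_
        by_cases h' : (ω j).2 n ∈ Ioc (a k) (b k) <;> simp [h']
      · simp [h]
    simp_rw [e2]
    rw [Finset.sum_comm]
    refine Finset.sum_congr rfl fun k _ => ?_
    rw [hF, Finset.sum_product, Finset.sum_eq_single (l k)]
    · simp only [if_true, XX]
      push_cast
      rw [Finset.sum_mul]
    · intro i _ hi
      refine Finset.sum_eq_zero fun m _ => ?_
      simp [hi.symm]
    · intro h
      exact absurd (Finset.mem_image_of_mem l (Finset.mem_univ k)) h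
  -- the characteristic function of a cell
  have e3 : ∀ (i : ι) (m : ℕ), ∫ x, Complex.exp ((τ i x : ℂ) * Complex.I) ∂(uni m) - 1 =
      ∑ k, if l k = i then ((uni m).real (Ioc (a k) (b k)) : ℂ) *
        (Complex.exp ((t k : ℂ) * Complex.I) - 1) else 0 := by
    intro i m
    have e4 : ∀ x, Complex.exp ((τ i x : ℂ) * Complex.I) =
        1 + ∑ k, if l k = i then (Ioc (a k) (b k)).indicator
          (fun _ => Complex.exp ((t k : ℂ) * Complex.I) - 1) x else 0 := by
      intro x
      by_cases hx : ∃ k, l k = i ∧ x ∈ Ioc (a k) (b k)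
      · obtain ⟨k, hk1, hk2⟩ := hx
        have hz : ∀ k', k' ≠ k → l k' = i → x ∉ Ioc (a k') (b k') := by
          intro k' hk' hl hx'
          exact Set.disjoint_left.1 (hd k' k hk' (hl.trans hk1.symm)) hx' hk2
        have h1 : τ i x = t k := by
          simp only [hτ]
          rw [Finset.sum_eq_single k]
          · simp [hk1, hk2]
          · intro k' _ hk'
            by_cases hl : l k' = i
            · simp [hl, hz k' hk' hl]
            · simp [hl]
          · simp
        rw [h1, Finset.sum_eq_single k]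
        · simp [hk1, hk2]
        · intro k' _ hk'
          by_cases hl : l k' = i
          · simp [hl, hz k' hk' hl]
          · simp [hl]
        · simp
      · push Not at hx
        have h1 : τ i x = 0 := by
          simp only [hτ]
          refine Finset.sum_eq_zero fun k _ => ?_
          by_cases hl : l k = i
          · simp [hl, hx k hl]
          · simp [hl]
        rw [h1, Finset.sum_eq_zero]
        · simp
        · intro k _
          by_cases hl : l k = i
          · simp [hl, hx k hl]
          · simp [hl]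
    simp_rw [e4]
    rw [integral_add (integrable_const _), integral_finsetSum]
    · simp only [integral_const, probReal_univ, one_smul, add_sub_cancel_left]
      refine Finset.sum_congr rfl fun k _ => ?_
      by_cases hl : l k = i
      · simp only [hl, if_true]
        rw [integral_indicator_const _ measurableSet_Ioc, Complex.real_smul]
      · simp [hl]
    · intro k _
      by_cases hl : l k = i
      · simp only [hl, if_true]
        exact (integrable_const _).indicator measurableSet_Ioc
      · simp [hl]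
    · refine integrable_finsetSum _ fun k _ => ?_
      by_cases hl : l k = i
      · simp only [hl, if_true]
        exact (integrable_const _).indicator measurableSet_Ioc
      · simp [hl]
  have e5 : ∀ ω : ι × ℕ → ℕ × (ℕ → ℝ),
      Complex.exp (((∑ k, (XX K (l k) (a k) (b k) ω : ℝ) * t k : ℝ) : ℂ) * Complex.I) =
      ∏ j ∈ F, Complex.exp ((cs (τ j.1) (ω j) : ℂ) * Complex.I) := by
    intro ω
    rw [e1, ← Complex.exp_sum]
    push_cast
    rw [Finset.sum_mul]
  rw [integral_congr_ae (Filter.Eventually.of_forall e5)]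
  unfold law
  rw [integral_prod_inf (fun j : ι × ℕ => cellLaw (r j.1) j.2) F
    (fun j c => Complex.exp ((cs (τ j.1) c : ℂ) * Complex.I)) (fun j => by
      have := measurable_cs (hτm j.1)
      fun_prop)]
  simp_rw [cell_char _ _ (hτm _), e3]
  rw [← Complex.exp_sum, ← Complex.exp_sum]
  congr 1
  simp_rw [Finset.mul_sum]
  rw [Finset.sum_comm]
  refine Finset.sum_congr rfl fun k _ => ?_
  rw [hF, Finset.sum_product, Finset.sum_eq_single (l k)]
  · simp only [if_true]
    rw [← vol_sum K (a k) (b k) (ha k) (hK k)]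
    push_cast
    rw [Finset.mul_sum, Finset.sum_mul]
    refine Finset.sum_congr rfl fun m _ => ?_
    ring
  · intro i _ hi
    refine Finset.sum_eq_zero fun m _ => ?_
    simp [hi.symm]
  · intro h
    exact absurd (Finset.mem_image_of_mem l (Finset.mem_univ k)) h

/-- The characteristic function of one count. -/
lemma char_XX (i : ι) (a b : ℝ) (ha : 0 ≤ a) (K : ℕ) (hK : b ≤ K) (t : ℝ) :
    charFun ((law r).map fun ω => (XX K i a b ω : ℝ)) t =
      Complex.exp ((r i * max (b - a) 0 : ℝ) * (Complex.exp ((t : ℂ) * Complex.I) - 1)) := by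
  have h := joint_char r (κ := Unit) (fun _ => i) (fun _ => a) (fun _ => b) (fun _ => t)
    (fun _ => ha) (fun j k hjk => absurd (Subsingleton.elim j k) hjk) K (fun _ => hK)
  have hm : Measurable fun ω => (XX K i a b ω : ℝ) :=
    measurable_from_top.comp (measurable_XX K i a b)
  rw [charFun_apply, integral_map hm.aemeasurable (by fun_prop)]
  simp only [Finset.univ_unique, Finset.sum_singleton, Finset.prod_singleton] at h
  rw [← h]
  refine integral_congr_ae (Filter.Eventually.of_forall fun ω => ?_)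
  simp [mul_comm]

lemma law_XX (i : ι) (a b : ℝ) (ha : 0 ≤ a) (K : ℕ) (hK : b ≤ K) :
    (law r).map (fun ω => (XX K i a b ω : ℝ)) =
      (poissonMeasure (r i * (b - a).toNNReal)).map (Nat.cast : ℕ → ℝ) := by
  have hm : Measurable fun ω => (XX K i a b ω : ℝ) :=
    measurable_from_top.comp (measurable_XX K i a b)
  have : IsProbabilityMeasure ((law r).map (fun ω => (XX K i a b ω : ℝ))) :=
    Measure.isProbabilityMeasure_map hm.aemeasurable
  refine Measure.ext_of_charFun ?_
  funext t
  rw [char_XX r i a b ha K hK, charFun_map_cast_poissonMeasure]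
  congr 2

lemma prob_XX (i : ι) (a b : ℝ) (ha : 0 ≤ a) (K : ℕ) (hK : b ≤ K) (n : ℕ) :
    law r {ω | XX K i a b ω = n} =
      ENNReal.ofReal (Real.exp (-(r i * (b - a).toNNReal)) * (r i * (b - a).toNNReal) ^ n / n !) := by
  have hm : Measurable fun ω => (XX K i a b ω : ℝ) :=
    measurable_from_top.comp (measurable_XX K i a b)
  have h1 : {ω | XX K i a b ω = n} = (fun ω => (XX K i a b ω : ℝ)) ⁻¹' {(n : ℝ)} := by
    ext ω
    simp
  rw [h1, ← Measure.map_apply hm (measurableSet_singleton _), law_XX r i a b ha K hK,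
    Measure.map_apply measurable_from_top (measurableSet_singleton _)]
  have h2 : (Nat.cast : ℕ → ℝ) ⁻¹' {(n : ℝ)} = {n} := by
    ext m
    simp
  rw [h2, poissonMeasure_singleton]
  push_cast
  rfl

lemma indep_XX {κ : Type} [Fintype κ] (l : κ → ι) (a b : κ → ℝ) (ha : ∀ k, 0 ≤ a k)
    (hd : ∀ j k, j ≠ k → l j = l k → Disjoint (Ioc (a j) (b j)) (Ioc (a k) (b k)))
    (K : ℕ) (hK : ∀ k, b k ≤ K) :
    iIndepFun (fun k ω => (XX K (l k) (a k) (b k) ω : ℝ)) (law r) := by
  have hm : ∀ k, Measurable fun ω => (XX K (l k) (a k) (b k) ω : ℝ) :=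
    fun k => measurable_from_top.comp (measurable_XX K (l k) (a k) (b k))
  rw [iIndepFun_iff_charFun_pi fun k => (hm k).aemeasurable]
  intro t
  simp_rw [char_XX r _ _ _ (ha _) K (hK _)]
  rw [← joint_char r l a b (fun k => t k) ha hd K hK, charFun_apply, integral_map]
  · refine integral_congr_ae (Filter.Eventually.of_forall fun ω => ?_)
    simp [PiLp.inner_apply, mul_comm]
  · exact ((WithLp.measurable_toLp 2 _).comp (measurable_pi_lambda _ hm)).aemeasurable
  · fun_prop

/-! ### The points -/

/-- The points of the process `i` when everything is fine. -/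
def pts (i : ι) (ω : ι × ℕ → ℕ × (ℕ → ℝ)) : Set ℝ :=
  {x | ∃ m l, l < (ω (i, m)).1 ∧ x = (ω (i, m)).2 l}

/-- The points are in their cells and different. -/
def Good (i : ι) (ω : ι × ℕ → ℕ × (ℕ → ℝ)) : Prop :=
  ∀ m : ℕ, (∀ l, (ω (i, m)).2 l ∈ Ioc (m : ℝ) (m + 1)) ∧
    ∀ l l', l ≠ l' → (ω (i, m)).2 l ≠ (ω (i, m)).2 l'

open Classical in
/-- The processes. -/
noncomputable def NN (i : ι) (ω : ι × ℕ → ℕ × (ℕ → ℝ)) : Set ℝ := if Good i ω then pts i ω else ∅

lemma measurableSet_good (i : ι) : MeasurableSet {ω | Good i ω} := by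
  have hc : ∀ m l, Measurable fun ω : ι × ℕ → ℕ × (ℕ → ℝ) => (ω (i, m)).2 l := fun m l =>
    (measurable_pi_apply l).comp (measurable_snd.comp (measurable_pi_apply (i, m)))
  simp only [Good, Set.ofPred_forall, Set.ofPred_and]
  refine MeasurableSet.iInter fun m => ?_
  refine MeasurableSet.inter (MeasurableSet.iInter fun l => ?_)
    (MeasurableSet.iInter fun l => MeasurableSet.iInter fun l' => MeasurableSet.iInter fun _ => ?_)
  · exact hc m l measurableSet_Ioc
  · exact (measurableSet_eq_fun (hc m l) (hc m l')).compl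

lemma ae_good (i : ι) : ∀ᵐ ω ∂(law r), Good i ω := by
  unfold Good
  rw [ae_all_iff]
  intro m
  have h1 : MeasurePreserving (fun ω : ι × ℕ → ℕ × (ℕ → ℝ) => (ω (i, m)).2) (law r)
      (Measure.infinitePi fun _ : ℕ => uni m) := by
    have h2 : MeasurePreserving (Prod.snd : ℕ × (ℕ → ℝ) → (ℕ → ℝ)) (cellLaw (r i) m)
        (Measure.infinitePi fun _ : ℕ => uni m) := by
      unfold cellLaw
      exact measurePreserving_snd
    exact h2.comp (measurePreserving_eval_infinitePi (fun j : ι × ℕ => cellLaw (r j.1) j.2) (i, m))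
  refine Filter.Eventually.and ?_ ?_
  · rw [ae_all_iff]
    intro l
    have h3 := h1.quasiMeasurePreserving
    have h4 := (measurePreserving_eval_infinitePi (fun _ : ℕ => uni m) l).quasiMeasurePreserving
    have h5 : ∀ᵐ x ∂(uni m), x ∈ Ioc (m : ℝ) (m + 1) := by
      unfold uni
      exact ae_restrict_mem measurableSet_Ioc
    exact h3.ae (h4.ae h5)
  · rw [ae_all_iff]
    intro l
    rw [ae_all_iff]
    intro l'
    by_cases hl : l = l'
    · exact Filter.Eventually.of_forall fun ω h => absurd hl h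
    · have h4 : MeasurePreserving (fun u : ℕ → ℝ => (u l, u l'))
          (Measure.infinitePi fun _ : ℕ => uni m) ((uni m).prod (uni m)) :=
        ⟨by fun_prop, Measure.infinitePi_map_eval_prod (P := fun _ : ℕ => uni m) hl⟩
      have h5 : ∀ᵐ z ∂((uni m).prod (uni m)), z.1 ≠ z.2 := by
        rw [ae_iff]
        have e : {z : ℝ × ℝ | ¬ z.1 ≠ z.2} = {z : ℝ × ℝ | z.1 = z.2} := by
          ext z; simp
        rw [e, Measure.measure_prod_null (measurableSet_eq_fun measurable_fst measurable_snd)]
        refine Filter.Eventually.of_forall fun x => ?_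
        have e2 : Prod.mk x ⁻¹' {z : ℝ × ℝ | z.1 = z.2} = {x} := by
          ext y; simp [eq_comm]
        change (uni m) (Prod.mk x ⁻¹' {z : ℝ × ℝ | z.1 = z.2}) = 0
        rw [e2]
        simp
      have h6 := h1.quasiMeasurePreserving.ae (h4.quasiMeasurePreserving.ae h5)
      filter_upwards [h6] with ω hω _
      exact hω

open Classical in
lemma encard_NN {i : ι} {ω : ι × ℕ → ℕ × (ℕ → ℝ)} (hg : Good i ω) (a b : ℝ) (K : ℕ) (hK : b ≤ K) :
    (NN i ω ∩ Ioc a b).encard = ((XX K i a b ω : ℕ) : ℕ∞) := by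
  set S : Finset ((_ : ℕ) × ℕ) := (Finset.range K).sigma fun m =>
    (Finset.range (ω (i, m)).1).filter fun l => (ω (i, m)).2 l ∈ Ioc a b with hS
  have h1 : NN i ω ∩ Ioc a b = (fun p : (_ : ℕ) × ℕ => (ω (i, p.1)).2 p.2) '' (S : Set _) := by
    ext x
    simp only [NN, if_pos hg, mem_inter_iff, mem_image, Finset.mem_coe]
    constructor
    · rintro ⟨⟨m, l, hl, rfl⟩, hx⟩
      refine ⟨⟨m, l⟩, ?_, rfl⟩
      simp only [hS, Finset.mem_sigma, Finset.mem_range, Finset.mem_filter]
      refine ⟨?_, hl, hx⟩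
      have h := ((hg m).1 l).1
      have : (m : ℝ) < K := lt_of_lt_of_le h (hx.2.trans hK)
      exact_mod_cast this
    · rintro ⟨⟨m, l⟩, hp, rfl⟩
      simp only [hS, Finset.mem_sigma, Finset.mem_range, Finset.mem_filter] at hp
      exact ⟨⟨m, l, hp.2.1, rfl⟩, hp.2.2⟩
  have h2 : Function.Injective (fun p : (_ : ℕ) × ℕ => (ω (i, p.1)).2 p.2) := by
    rintro ⟨m, l⟩ ⟨m', l'⟩ h
    simp only at h
    have hm : m = m' := by
      have a1 := (hg m).1 l
      have a2 := (hg m').1 l'
      rw [h] at a1
      have b1 : (m : ℝ) < m' + 1 := lt_of_lt_of_le a1.1 a2.2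
      have b2 : (m' : ℝ) < m + 1 := lt_of_lt_of_le a2.1 a1.2
      have c1 : m < m' + 1 := by exact_mod_cast b1
      have c2 : m' < m + 1 := by exact_mod_cast b2
      omega
    subst hm
    by_cases hl : l = l'
    · rw [hl]
    · exact absurd h ((hg m).2 l l' hl)
  rw [h1, h2.encard_image, Set.encard_coe_eq_coe_finsetCard, hS, Finset.card_sigma]
  congr 1
  simp only [XX, cnt]
  refine Finset.sum_congr rfl fun m _ => ?_
  congr 1
  ext x
  simp

lemma encard_NN_bad {i : ι} {ω : ι × ℕ → ℕ × (ℕ → ℝ)} (hg : ¬ Good i ω) (a b : ℝ) :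
    (NN i ω ∩ Ioc a b).encard = 0 := by
  simp [NN, if_neg hg]

lemma ae_encard (i : ι) (a b : ℝ) (K : ℕ) (hK : b ≤ K) :
    (fun ω => (NN i ω ∩ Ioc a b).encard) =ᵐ[law r] fun ω => ((XX K i a b ω : ℕ) : ℕ∞) := by
  filter_upwards [ae_good r i] with ω hω
  exact encard_NN hω a b K hK

lemma measurable_encard (i : ι) (a b : ℝ) :
    Measurable fun ω => (NN i ω ∩ Ioc a b).encard := by
  classical
  obtain ⟨K, hK⟩ := exists_nat_ge b
  have h : (fun ω => (NN i ω ∩ Ioc a b).encard) =
      fun ω => if Good i ω then ((XX K i a b ω : ℕ) : ℕ∞) else 0 := by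
    funext ω
    by_cases hg : Good i ω
    · rw [if_pos hg, encard_NN hg a b K hK]
    · rw [if_neg hg, encard_NN_bad hg]
  rw [h]
  refine Measurable.ite (measurableSet_good i) ?_ measurable_const
  exact measurable_from_top.comp (measurable_XX K i a b)

end All

/-- **[EXI]** Independent Poisson processes exist. -/
theorem s_exi : S_EXI := by
  intro ι _ rate hrate
  set r : ι → ℝ≥0 := fun i => ⟨rate i, hrate i⟩ with hr
  refine ⟨_, inferInstance, law r, inferInstance, NN, hrate, fun i a b _ => measurable_encard i a b,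
    ?_, ?_⟩
  · intro i a b ha hab k
    obtain ⟨K, hK⟩ := exists_nat_ge b
    have h1 : law r {ω | (NN i ω ∩ Ioc a b).encard = (k : ℕ∞)} = law r {ω | XX K i a b ω = k} := by
      refine measure_congr ?_
      filter_upwards [ae_encard r i a b K hK] with ω hω
      have : ((NN i ω ∩ Ioc a b).encard = (k : ℕ∞)) = (XX K i a b ω = k) := by
        rw [hω]
        simp
      exact this
    rw [h1, prob_XX r i a b ha K hK k, Real.coe_toNNReal _ (sub_nonneg.2 hab)]
    rfl
  · intro κ l a b ha hd
    rw [iIndepFun_iff_finset]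
    intro s
    set K : ℕ := ∑ k : s, ⌈b k⌉₊ with hKdef
    have hK : ∀ k : s, b k ≤ K := by
      intro k
      refine (Nat.le_ceil (b k)).trans ?_
      exact_mod_cast Finset.single_le_sum (f := fun k : s => ⌈b k⌉₊) (fun _ _ => Nat.zero_le _)
        (Finset.mem_univ k)
    have h1 := indep_XX r (fun k : s => l k) (fun k : s => a k) (fun k : s => b k)
      (fun k => ha k) (fun j k hjk hl => hd j k (fun h => hjk (Subtype.ext h)) hl) K hK
    have h2 := h1.comp (fun _ x => ((⌊x⌋₊ : ℕ) : ℕ∞))
      (fun _ => measurable_from_top.comp Nat.measurable_floor)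
    refine h2.congr fun k => ?_
    filter_upwards [ae_encard r (l k) (a k) (b k) K (hK k)] with ω hω
    simp only [Function.comp, Finset.restrict, Nat.floor_natCast]
    exact hω.symm

end Pool.Agent.H331.LR
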